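import Pool.Agent.Lib.H49W.Good2

/-!
# The exponents of the elements of `A` (MP_d0f2af_nt)

`A = {n ≥ 1 : σ(n) = 2 usigma(n)}`. Let `n = 2 ^ a * m`, `m` odd, be an element of `A` and `t` the number
of primes with exponent at least `2` in `m`. The exponent of `2` in the number of divisors of `m` is
`ω(m) + 1`. Some prime has exponent `e ≡ 3 mod 4` in `m`, and such a prime power `p ^ e` can be bounded
in terms of `t` and `2 ^ a`, its exponent in terms of `t`. The smallest exponent `≥ 2` in `m` is less
than `4 ^ (t + 1)`.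
-/

namespace Pool.Agent.Results.MP_d0f2af_nt.ExponentLaws

open H49W

theorem result (a m t : ℕ) (hm : Odd m) (hA : InA (2 ^ a * m))
    (ht : (m.primeFactors.filter fun q => 2 ≤ m.factorization q).card = t) :
    padicValNat 2 m.divisors.card = m.primeFactors.card + 1 ∧
    (∃ p ∈ m.primeFactors, m.factorization p % 4 = 3 ∧
      p ^ m.factorization p < (8 * t * 2 ^ a) ^ ((2 ^ t + 2) ^ t) ∧
      m.factorization p < (t + 3) * (2 ^ t + 2) ^ t) ∧
    (∃ p ∈ m.primeFactors, 2 ≤ m.factorization p ∧ m.factorization p < 4 ^ (t + 1)) := by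
  refine ⟨parity_law a m hm hA, good_exponent a m hm hA ht, ?_⟩
  obtain ⟨p, hp, hp2, he, hlt⟩ := small_exponent hA
  have hm0 : m ≠ 0 := hm.pos.ne'
  have hpp := Nat.prime_of_mem_primeFactors hp
  obtain ⟨-, hf⟩ := fact_two_pow_mul (a := a) hm
  rw [hf p hp2] at he hlt
  refine ⟨p, Nat.mem_primeFactors.mpr ⟨hpp, ?_, hm0⟩, he, hlt.trans_le ?_⟩
  · by_contra hd
    rw [Nat.factorization_eq_zero_of_not_dvd hd] at he
    omega
  · refine Nat.pow_le_pow_right (by norm_num) ?_
    rw [← ht]
    have hsub : ((2 ^ a * m).primeFactors.filter fun q => 2 ≤ (2 ^ a * m).factorization q) ⊆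
        insert 2 (m.primeFactors.filter fun q => 2 ≤ m.factorization q) := by
      intro q hq
      rw [Finset.mem_filter] at hq
      rw [Finset.mem_insert]
      rcases eq_or_ne q 2 with h2 | h2
      · exact Or.inl h2
      · right
        rw [hf q h2] at hq
        refine Finset.mem_filter.mpr ⟨Nat.mem_primeFactors.mpr
          ⟨Nat.prime_of_mem_primeFactors hq.1, ?_, hm0⟩, hq.2⟩
        by_contra hd
        have := hq.2
        rw [Nat.factorization_eq_zero_of_not_dvd hd] at this
        omega
    exact (Finset.card_le_card hsub).trans (Finset.card_insert_le _ _)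

end Pool.Agent.Results.MP_d0f2af_nt.ExponentLaws
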