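import Pool.Agent.Lib.H73E.Main

/-!
# Elements of `A` divisible by the squares of few primes (MP_d0f2af_nt)

`A = {n ≥ 1 : σ(n) = 2 usigma(n)}`. For `n ∈ A` let `w2 n` be the number of primes whose squares divide `n`
(the other primes do not matter; for primitive elements `w2 n` is the number of all prime factors). If
`w2 n ≤ 3`, then `n` is `108` times a squarefree number coprime to `6`; if `w2 n = 4`, then `2 ^ 9 ∣ n`; if
`w2 n = 5`, then `2 ^ 3 ∣ n`; if `n` is odd, then `w2 n ≥ 6`. So `108` is the only primitive element with at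
most three distinct prime factors.

Proof for four and five primes: `∏ F(p, a_p) = 2` with `F(p, a) = σ(p ^ a) / (p ^ a + 1)`, which increases in
`a` from `1 + p / (p ^ 2 + 1)` (`a = 2`) to `p / (p - 1)`. Search tree over the primes in increasing order and
their exponents, with intervals for unbounded exponents; the last prime is excluded by the gaps between the
values of `1 / (F(q, c) - 1)`. The checker `H73E.chk` is proved sound (`Lib/H73E/Sound.lean`) and evaluated by
the kernel (`Lib/H73E/PartA.lean` to `PartF.lean`, about 230000 nodes).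
-/

set_option autoImplicit false

namespace Pool.Agent.Results.MP_d0f2af_nt.FewPrimes

/-- The sum of all positive divisors of `n`. -/
def sigma (n : ℕ) : ℕ := ∑ d ∈ n.divisors, d

/-- The sum of the unitary divisors of `n`: the divisors `d` with `gcd(d, n/d) = 1`. -/
def usigma (n : ℕ) : ℕ := ∑ d ∈ n.divisors with Nat.gcd d (n / d) = 1, d

/-- The set `A` of the problem. -/
def A : Set ℕ := {n | 1 ≤ n ∧ sigma n = 2 * usigma n}

/-- Primitive elements of `A`: no proper divisor belongs to `A`. -/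
def IsPrimitive (n : ℕ) : Prop := n ∈ A ∧ ∀ d : ℕ, d ∣ n → d < n → d ∉ A

/-- The number of primes `p` with `p ^ 2 ∣ n`. -/
def w2 (n : ℕ) : ℕ := (n.primeFactors.filter (fun p => p ^ 2 ∣ n)).card

/-- (1) A number is a primitive element of `A` with at most three distinct prime factors if and only
if it is `108`. (2) If `n ∈ A` and `w2 n ≤ 3`, then `n = 108 * s` with `s` squarefree and coprime to `108`.
(3) If `n ∈ A` and `w2 n = 4`, then `2 ^ 9 ∣ n`. (4) If `n ∈ A` and `w2 n = 5`, then `2 ^ 3 ∣ n`.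
(5) If `n ∈ A` is odd, then `w2 n ≥ 6`. -/
theorem result (n : ℕ) :
    ((IsPrimitive n ∧ n.primeFactors.card ≤ 3) ↔ n = 108) ∧
    (n ∈ A → w2 n ≤ 3 → ∃ s : ℕ, Squarefree s ∧ Nat.Coprime 108 s ∧ n = 108 * s) ∧
    (n ∈ A → w2 n = 4 → 2 ^ 9 ∣ n) ∧
    (n ∈ A → w2 n = 5 → 2 ^ 3 ∣ n) ∧
    (n ∈ A → Odd n → 6 ≤ w2 n) := by
  have h2 : n ∈ A → w2 n ≤ 3 → ∃ s : ℕ, Squarefree s ∧ Nat.Coprime 108 s ∧ n = 108 * s :=
    fun h h3 => Pool.Agent.Lib.H73D.d73_general n h h3
  have h3 : n ∈ A → w2 n = 4 → 2 ^ 9 ∣ n := fun h h4 => Pool.Agent.Lib.H73E.e73_four n h h4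
  have h5 : n ∈ A → w2 n = 5 → 2 ^ 3 ∣ n := fun h h4 => Pool.Agent.Lib.H73E.e73_five n h h4
  refine ⟨?_, h2, h3, h5, ?_⟩
  · constructor
    · rintro ⟨h, h3⟩
      exact Pool.Agent.Lib.H73D.d73_primitive n h h3
    · rintro rfl
      refine ⟨⟨Pool.Agent.Lib.H73D.d73_inA_108, ?_⟩, ?_⟩
      · intro d hd hlt hA
        have h2 : sigma d = 2 * usigma d := hA.2
        have key : ∀ d ∈ Finset.range 108, d ∣ 108 → ¬ sigma d = 2 * usigma d := by
          unfold sigma usigma
          decide +kernel
        exact key d (Finset.mem_range.2 hlt) hd h2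
      · have h : (108 : ℕ) = 2 ^ 2 * 3 ^ 3 := by norm_num
        rw [h, Nat.primeFactors_mul (by norm_num) (by norm_num),
          Nat.primeFactors_prime_pow (by norm_num) Nat.prime_two,
          Nat.primeFactors_prime_pow (by norm_num) Nat.prime_three]
        decide
  · intro hA hodd
    by_contra hcon
    push Not at hcon
    obtain ⟨k, hk⟩ := hodd
    rcases Nat.lt_or_ge (w2 n) 4 with h6 | h6
    · obtain ⟨s, -, -, hs⟩ := h2 hA (by omega)
      omega
    · rcases Nat.lt_or_ge (w2 n) 5 with h7 | h7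
      · obtain ⟨c, hc⟩ := h3 hA (by omega)
        omega
      · obtain ⟨c, hc⟩ := h5 hA (by omega)
        omega

end Pool.Agent.Results.MP_d0f2af_nt.FewPrimes
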