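import Pool.Agent.Lib.H49W.Count3
import Pool.Agent.Lib.H49W.Asymp

/-!
# The primitive elements of `A` are sparse (MP_d0f2af_nt)

`A = {n ≥ 1 : σ(n) = 2 usigma(n)}`. Primitive elements of `A` are powerful (problem file). The number of
powerful elements of `A` up to `N` is at most `√N exp (-c √(log N log log N))` for large `N`, and at most
`N ^ (1/2 - 1/(2k)) (1 + log N)` if one counts only those with at most `k` prime factors.
-/

namespace Pool.Agent.Results.MP_d0f2af_nt.SparseSolutions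

open H49W

theorem result :
    (∀ k N : ℕ, 1 ≤ k → 1 ≤ N →
      (({n : ℕ | n ≤ N ∧ InA n ∧ Powerful n ∧ n.primeFactors.card ≤ k}.ncard : ℕ) : ℝ) ≤
        (N : ℝ) ^ ((1 - 1 / (k : ℝ)) / 2) * (1 + Real.log N)) ∧
    (∃ c : ℝ, 0 < c ∧ ∀ᶠ N : ℕ in Filter.atTop,
      (({n : ℕ | n ≤ N ∧ InA n ∧ Powerful n}.ncard : ℕ) : ℝ) ≤
        Real.sqrt N * Real.exp (-c * Real.sqrt (Real.log N * Real.log (Real.log N)))) := by
  classical
  constructor
  · intro k N hk hN
    have hset : {n : ℕ | n ≤ N ∧ InA n ∧ Powerful n ∧ n.primeFactors.card ≤ k} =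
        (((PA N).filter fun n => om n ≤ k : Finset ℕ) : Set ℕ) := by
      ext n
      rw [Set.mem_ofPred_eq, Finset.mem_coe, Finset.mem_filter, mem_PA]
      unfold om
      tauto
    rw [hset, Set.ncard_coe_finset]
    exact card_few_le hk hN
  · obtain ⟨c, hc, h⟩ := asymp
    refine ⟨c, hc, ?_⟩
    filter_upwards [h, Filter.eventually_ge_atTop 1] with N hN hN1
    obtain ⟨J, z, hJ, hz, hle⟩ := hN
    have hset : {n : ℕ | n ≤ N ∧ InA n ∧ Powerful n} = ((PA N : Finset ℕ) : Set ℕ) := by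
      ext n
      rw [Set.mem_ofPred_eq, Finset.mem_coe, mem_PA]
      tauto
    rw [hset, Set.ncard_coe_finset]
    exact (card_PA_le hJ hz hN1).trans hle

end Pool.Agent.Results.MP_d0f2af_nt.SparseSolutions
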