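import Pool.Agent.Lib.H49W.Four3

/-!
# Large elements of `A` with few prime factors (MP_d0f2af_nt)

`A = {n ≥ 1 : σ(n) = 2 usigma(n)}`. Primitive elements of `A` are powerful (problem file). Let `n ∈ A` be
powerful with at most `k` prime factors and `2 ^ a ∥ n`. (1) Structure theorem of Dickson type with an
explicit bound `F`: if `n > F(k, Z, b)`, `b = 0` or `b = a`, then `n = u v w` with
`σ(u)/usigma(u) * ∏_{p ∣ v} p/(p-1) = 2`, where `u` and the primes of `v` are at most `F(k, Z, b)`, the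
exponents of `v` and the primes of `w` exceed `Z`, and `v`, `w` are odd if `b = a`. (2) Parity and
congruence conditions exclude such a limit solution; this bounds `n` in terms of `k` and `2 ^ a`.
(3) For `k ≤ 4` there is no such limit solution, so `n ≤ F(k, 1, a)`.
-/

namespace Pool.Agent.Results.MP_d0f2af_nt.StructureAndFiniteness

open H49W

theorem result (k n : ℕ) (hA : InA n) (hP : Powerful n) (hk : n.primeFactors.card ≤ k) :
    (∀ Z b : ℕ, 1 ≤ Z → (b = 0 ∨ b = n.factorization 2) → bound k Z b < n →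
      ∃ u v w : ℕ, n = u * v * w ∧ Nat.Coprime u v ∧ Nat.Coprime (u * v) w ∧
        u ≤ bound k Z b ∧ 1 < v ∧ 1 < w ∧
        (∀ p ∈ v.primeFactors, p ≤ bound k Z b ∧ Z < v.factorization p) ∧
        (∀ p ∈ w.primeFactors, Z < p) ∧
        ((∑ d ∈ u.divisors, d : ℕ) : ℚ) / (usigma u : ℚ) *
          ∏ p ∈ v.primeFactors, (p : ℚ) / ((p : ℚ) - 1) = 2 ∧
        (b = n.factorization 2 → Odd (v * w))) ∧
    (bound k 1 (n.factorization 2) < n →
      (∀ t : ℕ, (∀ p ∈ n.primeFactors, p ≠ 2 → p ≡ 1 [MOD 2 ^ (t + 1)]) →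
        t < (n.primeFactors.filter fun p => p ≠ 2 ∧ Even (n.factorization p)).card) ∧
      (∀ l : ℕ, l.Prime → l ≠ 2 → ∃ p ∈ n.primeFactors, p ≠ 2 ∧ ¬ p ≡ 1 [MOD l])) ∧
    (k ≤ 4 → n ≤ bound k 1 (n.factorization 2)) := by
  refine ⟨fun Z b hZ hb hn => structure_explicit hA hP hk hZ hb hn, fun hn => ⟨fun t hmod => ?_,
    fun l hl hl2 => ?_⟩, fun hk4 => four_explicit hA hP hk hk4⟩
  · by_contra ht
    exact absurd (even_explicit hA hP hk hmod (not_lt.mp ht)) (not_le.mpr hn)
  · by_contra hmod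
    push Not at hmod
    exact absurd (mod_explicit hl hl2 hA hP hk hmod) (not_le.mpr hn)

end Pool.Agent.Results.MP_d0f2af_nt.StructureAndFiniteness
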